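import Pool.Agent.V7H18.RP.AsmC
import Pool.Agent.V7H18.RP.Opt

/-!
# Waring's problem for almost all polynomials: almost all integers are sums of `k + 1` values

For a real polynomial of degree `k` with positive leading coefficient `γ`, coefficients
`α 0, ..., α (k - 2)` of `n, ..., n ^ (k - 1)` and constant term `b` let `Val k γ α b n` be the
integer part of its value at the natural number `n`. For `γ = 1` these numbers are the `k`-th
powers perturbed by lower order terms, `n ^ k + ⌊α_{k-1} n ^ (k - 1) + ... + α_1 n + b⌋`.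

* for every `γ > 0`, for almost all `α` (Lebesgue measure) and for all `b`, all but
  `O(X ^ (1 - δ))` of the positive integers `N ≤ X` are sums of exactly `k + 1` values;
* for all `α` and `b` at most `(1 + ε) X / (γ k!)` of them are sums of at most `k` values;
* hence, if `γ k! > 1`, in particular for monic polynomials, for almost all `α` and all `b`
  almost all integers are sums of at most `s` values if and only if `s ≥ k + 1`.

The proof is the circle method: the mean value over the random coefficients and the bound for the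
exponential sums are from the modules `Pool.Agent.V7H89.GP` (written by a teammate), the weights
`sin (π f(n)) ^ 2` with their exact Fourier expansion, Bessel's inequality for the difference of
the number of representations from its local average, the lower bound for this average and the
assembly are from `Pool.Agent.V7H18.RP`.
-/

set_option autoImplicit false

namespace Pool.Agent.Results.MP_45c923_nt.AlmostAllIntegersH18

open Finset MeasureTheory Filter

/-- the integer part of `γ n ^ k + ∑ α_j n ^ (j + 1) + b`, where `j = 0, ..., k - 2` -/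
noncomputable def Val (k : ℕ) (γ : ℝ) (α : Fin (k - 1) → ℝ) (b : ℝ) (n : ℕ) : ℤ :=
  ⌊γ * (n : ℝ) ^ k + ∑ j : Fin (k - 1), α j * (n : ℝ) ^ ((j : ℕ) + 1) + b⌋

/-- `N` is a sum of exactly `s` values of `g` -/
def IsSum (g : ℕ → ℤ) (s N : ℕ) : Prop := ∃ x : Fin s → ℕ, ∑ i, g (x i) = N

open scoped Classical in
/-- the number of integers `1 ≤ N ≤ X` with a property -/
noncomputable def Count (A : ℕ → Prop) (X : ℕ) : ℝ := ((Icc 1 X).filter A).card

/-- almost all positive integers have a property: natural density one -/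
def AlmostAll (A : ℕ → Prop) : Prop :=
  ∀ ε : ℝ, 0 < ε → ∃ X0 : ℕ, ∀ X : ℕ, X0 ≤ X → Count (fun N => ¬ A N) X ≤ ε * X

theorem val_eq (d : ℕ) (γ : ℝ) (α : Fin (d + 1) → ℝ) (b : ℝ) (n : ℕ) :
    Val (d + 2) γ α b n = ⌊Pool.Agent.V7H18.RP.fv d γ b α n⌋ := rfl

theorem part1 (k : ℕ) (hk : 2 ≤ k) : ∃ δ : ℝ, 0 < δ ∧ ∀ γ : ℝ, 0 < γ → ∀ᵐ α : Fin (k - 1) → ℝ, ∀ b : ℝ,
    ∃ C : ℝ, ∀ X : ℕ, 1 ≤ X → Count (fun N => ¬ IsSum (Val k γ α b) (k + 1) N) X ≤ C * (X : ℝ) ^ (1 - δ) := by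
  obtain ⟨d, rfl⟩ : ∃ d, k = d + 2 := ⟨k - 2, by omega⟩
  obtain ⟨δ, hδ, h⟩ := Pool.Agent.V7H18.RP.total d
  refine ⟨δ, hδ, fun γ hγ => ?_⟩
  have h1 := h γ hγ
  change ∀ᵐ α : Fin (d + 1) → ℝ, _
  filter_upwards [h1] with α hα b
  obtain ⟨C, hC⟩ := hα b
  refine ⟨C, fun X hX => ?_⟩
  refine le_trans (le_of_eq ?_) (hC X hX)
  classical
  unfold Count
  congr 2
  ext N
  simp only [mem_filter]
  exact Iff.rfl

theorem part2 (k : ℕ) (hk : 2 ≤ k) (γ : ℝ) (hγ : 0 < γ) (α : Fin (k - 1) → ℝ) (b ε : ℝ) (hε : 0 < ε) :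
    ∃ X0 : ℕ, ∀ X : ℕ, X0 ≤ X →
      Count (fun N => ∃ s ≤ k, IsSum (Val k γ α b) s N) X ≤ (1 + ε) * (X / (γ * (Nat.factorial k : ℕ))) := by
  obtain ⟨d, rfl⟩ : ∃ d, k = d + 2 := ⟨k - 2, by omega⟩
  obtain ⟨X0, h⟩ := Pool.Agent.V7H18.RP.opt d hγ b α hε
  refine ⟨X0, fun X hX => ?_⟩
  refine le_trans (le_of_eq ?_) (h X hX)
  classical
  unfold Count
  congr 2
  ext N
  simp only [mem_filter]
  exact Iff.rfl

theorem count_add (A : ℕ → Prop) (X : ℕ) : Count A X + Count (fun N => ¬ A N) X = X := by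
  classical
  unfold Count
  have h := card_filter_add_card_filter_not (s := Icc 1 X) A
  rw [Nat.card_Icc, Nat.add_sub_cancel] at h
  have h2 : (((Icc 1 X).filter A).card : ℝ) + (((Icc 1 X).filter (fun N => ¬ A N)).card : ℝ) = X := by
    exact_mod_cast h
  convert h2

theorem count_mono {A B : ℕ → Prop} (h : ∀ N, A N → B N) (X : ℕ) : Count A X ≤ Count B X := by
  classical
  unfold Count
  have : ((Icc 1 X).filter A).card ≤ ((Icc 1 X).filter B).card :=
    card_le_card (monotone_filter_right _ fun N _ hN => h N hN)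
  exact_mod_cast this

theorem part3 (k : ℕ) (hk : 2 ≤ k) (γ : ℝ) (hγ : 0 < γ) (hγk : 1 < γ * (Nat.factorial k : ℕ)) :
    ∀ᵐ α : Fin (k - 1) → ℝ, ∀ b : ℝ, ∀ s : ℕ,
      AlmostAll (fun N => ∃ t ≤ s, IsSum (Val k γ α b) t N) ↔ k + 1 ≤ s := by
  obtain ⟨δ, hδ, h⟩ := part1 k hk
  filter_upwards [h γ hγ] with α hα
  intro b s
  constructor
  · intro hall
    by_contra hcon
    push Not at hcon
    obtain ⟨q, hq⟩ : ∃ q : ℝ, q = 1 / (γ * (Nat.factorial k : ℕ)) := ⟨_, rfl⟩
    have hq0 : 0 < q := by rw [hq]; positivity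
    have hq1 : q < 1 := by
      rw [hq, div_lt_one (by positivity)]
      exact hγk
    obtain ⟨ε, hε⟩ : ∃ ε : ℝ, ε = (1 - q) / 3 := ⟨_, rfl⟩
    have hε0 : 0 < ε := by rw [hε]; linarith
    obtain ⟨X1, hX1⟩ := hall ε hε0
    obtain ⟨X2, hX2⟩ := part2 k hk γ hγ α b ε hε0
    obtain ⟨X, hX⟩ : ∃ X : ℕ, X = max X1 (max X2 1) := ⟨_, rfl⟩
    have a1 := hX1 X (by rw [hX]; exact le_max_left _ _)
    have a2 := hX2 X (by rw [hX]; exact (le_max_left _ _).trans (le_max_right _ _))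
    have a3 : 1 ≤ X := by rw [hX]; exact (le_max_right _ _).trans (le_max_right _ _)
    have a4 := count_add (fun N => ∃ t ≤ s, IsSum (Val k γ α b) t N) X
    have a5 : Count (fun N => ∃ t ≤ s, IsSum (Val k γ α b) t N) X ≤
        Count (fun N => ∃ s ≤ k, IsSum (Val k γ α b) s N) X := by
      refine count_mono ?_ X
      rintro N ⟨t, ht, hN⟩
      exact ⟨t, by omega, hN⟩
    have a6 : (X : ℝ) / (γ * (Nat.factorial k : ℕ)) = q * X := by rw [hq]; ring
    rw [a6] at a2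
    have hXr : (1 : ℝ) ≤ X := by exact_mod_cast a3
    have a7 : (X : ℝ) ≤ (1 + ε) * (q * X) + ε * X := by linarith
    have a8 : (1 : ℝ) ≤ (1 + ε) * q + ε := by
      have : (1 : ℝ) * X ≤ ((1 + ε) * q + ε) * X := by linarith
      exact le_of_mul_le_mul_right this (by linarith)
    rw [hε] at a8
    nlinarith
  · intro hs ε hε
    obtain ⟨C, hC⟩ := hα b
    have ht : Tendsto (fun X : ℕ => (X : ℝ) ^ δ) atTop atTop :=
      (tendsto_rpow_atTop hδ).comp tendsto_natCast_atTop_atTop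
    obtain ⟨X0, hX0⟩ := eventually_atTop.1 (ht.eventually_ge_atTop (C / ε))
    refine ⟨max X0 1, fun X hX => ?_⟩
    have hX1 : 1 ≤ X := (le_max_right _ _).trans hX
    have hXr : (0 : ℝ) < X := by exact_mod_cast hX1
    have a1 := hX0 X ((le_max_left _ _).trans hX)
    rw [div_le_iff₀ hε] at a1
    have a2 : Count (fun N => ¬ ∃ t ≤ s, IsSum (Val k γ α b) t N) X ≤
        Count (fun N => ¬ IsSum (Val k γ α b) (k + 1) N) X :=
      count_mono (fun N hN h1 => hN ⟨k + 1, hs, h1⟩) X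
    refine (a2.trans (hC X hX1)).trans ?_
    rw [Real.rpow_sub hXr, Real.rpow_one, ← mul_div_assoc, div_le_iff₀ (by positivity)]
    calc C * (X : ℝ) ≤ ((X : ℝ) ^ δ * ε) * X := mul_le_mul_of_nonneg_right a1 hXr.le
      _ = ε * X * (X : ℝ) ^ δ := by ring

/-- (1) for every degree `k ≥ 2` there is `δ > 0` such that for every leading coefficient `γ > 0`,
almost all coefficients `α` and all constant terms `b` all but `O(X ^ (1 - δ))` of the integers
`1 ≤ N ≤ X` are sums of exactly `k + 1` values; (2) for all `γ > 0`, `α`, `b` and `ε > 0` and all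
large `X` at most `(1 + ε) X / (γ k!)` of the integers `1 ≤ N ≤ X` are sums of at most `k` values;
(3) for `γ k! > 1`, almost all `α` and all `b`: almost all integers are sums of at most `s` values
if and only if `s ≥ k + 1`. -/
theorem result :
    (∀ k : ℕ, 2 ≤ k → ∃ δ : ℝ, 0 < δ ∧ ∀ γ : ℝ, 0 < γ → ∀ᵐ α : Fin (k - 1) → ℝ, ∀ b : ℝ, ∃ C : ℝ,
      ∀ X : ℕ, 1 ≤ X → Count (fun N => ¬ IsSum (Val k γ α b) (k + 1) N) X ≤ C * (X : ℝ) ^ (1 - δ)) ∧
    (∀ k : ℕ, 2 ≤ k → ∀ γ : ℝ, 0 < γ → ∀ (α : Fin (k - 1) → ℝ) (b ε : ℝ), 0 < ε →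
      ∃ X0 : ℕ, ∀ X : ℕ, X0 ≤ X →
        Count (fun N => ∃ s ≤ k, IsSum (Val k γ α b) s N) X ≤ (1 + ε) * (X / (γ * (Nat.factorial k : ℕ)))) ∧
    (∀ k : ℕ, 2 ≤ k → ∀ γ : ℝ, 0 < γ → 1 < γ * (Nat.factorial k : ℕ) → ∀ᵐ α : Fin (k - 1) → ℝ, ∀ b : ℝ, ∀ s : ℕ,
      AlmostAll (fun N => ∃ t ≤ s, IsSum (Val k γ α b) t N) ↔ k + 1 ≤ s) :=
  ⟨part1, part2, part3⟩

end Pool.Agent.Results.MP_45c923_nt.AlmostAllIntegersH18
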