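import Pool.Agent.V7H21.MW.Stm

/-!
# Waring's problem with multiples of a generic number: linearly many powers

`G(k)` is the least `m` such that every large integer is a sum of `m` `k`-th powers of integers. Here
some of the powers are powers `(β z)^k` of integral multiples of a fixed real number `β > 0`; the sums are
then real numbers and their integer parts are considered. For almost every `β` (for all `k` at once):

* every large integer is the integer part of a sum of `2 ⌈k log 2⌉` powers `x^k` and `2 ⌈k log 2⌉`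
  powers `(β z)^k`: altogether less than `2.78 k + 4` powers;
* for every `ε` the number of the powers of multiples of `β` can be reduced to `ε k + 2`, if the number of
  the other powers is `2 ⌈k log (3/ε)⌉`; in general `2 s` powers `x^k` and `2 t` powers `(β z)^k` suffice
  if `(1 - 1/k)^s + (1 - 1/k)^t < 1`;
* if this sum is less than `1 - δ`, then every large real number `y` has distance at most `y^(-δ)` from
  such a sum.

At least `k` powers are necessary, for every `β`. So for almost every `β` the order of magnitude of the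
number of the powers is `k`.

Proof. Let `F(t)` be the exponential sum over the sums of `s` powers with diminishing ranges (Hardy,
Littlewood), `N` the scale. These sums are evenly distributed at all scales, up to constants. The
difference between the numbers of the representations of `y` with precisions `η` and `H = N^(1-c)` is at
most `∫ w(t) |F₁(t) F₂(β^k t)|² dt`, uniformly in `y`, for Gaussian weights, `w ≥ 0`. This is again a
difference of counts, and its average over `β^k` with a Gaussian weight can be computed exactly and is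
small; no estimate for a single exponential sum is needed. Then the Borel-Cantelli lemma is used.
-/

set_option autoImplicit false

namespace Pool.Agent.Results.MP_45c923_nt.GenericMultiplesH21

open MeasureTheory

/-- Every large integer is the integer part of a sum of `s` powers `x^k` and `t` powers `(β z)^k`,
`x`, `z` nonnegative integers. -/
def Order (β : ℝ) (k s t : ℕ) : Prop :=
  ∃ n₀ : ℕ, ∀ n ≥ n₀, ∃ (x : Fin s → ℕ) (z : Fin t → ℕ),
    ⌊∑ i, (x i : ℝ) ^ k + ∑ j, (β * z j) ^ k⌋₊ = n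

/-- Every large real number `y` has distance at most `y^(-δ)` from a sum of `s` powers `x^k` and `t`
powers `(β z)^k`. -/
def Near (β : ℝ) (k s t : ℕ) (δ : ℝ) : Prop :=
  ∃ y₀ : ℝ, ∀ y ≥ y₀, ∃ (x : Fin s → ℕ) (z : Fin t → ℕ),
    |∑ i, (x i : ℝ) ^ k + ∑ j, (β * z j) ^ k - y| ≤ y ^ (-δ)

lemma near_of {β : ℝ} {k s t : ℕ} {δ : ℝ} (h : Pool.Agent.V7H21.MW.Near (β ^ k) k s t δ) :
    Near β k s t δ := by
  obtain ⟨y₀, h⟩ := h
  refine ⟨y₀, fun y hy => ?_⟩
  obtain ⟨x, z, h1⟩ := h y hy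
  refine ⟨x, z, ?_⟩
  have h6 : ∑ j, (β * (z j : ℝ)) ^ k = β ^ k * ∑ j, (z j : ℝ) ^ k := by
    rw [Finset.mul_sum]
    exact Finset.sum_congr rfl fun j _ => mul_pow _ _ _
  rw [h6]
  exact h1

lemma small_pow {k : ℕ} (hk : 2 ≤ k) {x : ℝ} (hx : 0 ≤ x) :
    (1 - 1 / (k : ℝ)) ^ ⌈k * x⌉₊ ≤ Real.exp (-x) := by
  have hk0 : (2 : ℝ) ≤ k := by exact_mod_cast hk
  have hkp : (0 : ℝ) < k := by linarith
  have h1 : 1 - 1 / (k : ℝ) ≤ Real.exp (-(1 / (k : ℝ))) := by
    have h2 := Real.add_one_le_exp (-(1 / (k : ℝ)))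
    linarith
  have h0 : 0 ≤ 1 - 1 / (k : ℝ) := by
    rw [sub_nonneg, div_le_one hkp]; linarith
  calc (1 - 1 / (k : ℝ)) ^ ⌈k * x⌉₊ ≤ (Real.exp (-(1 / (k : ℝ)))) ^ ⌈k * x⌉₊ :=
        pow_le_pow_left₀ h0 h1 _
    _ = Real.exp (-(⌈k * x⌉₊ / k)) := by
        rw [← Real.exp_nat_mul]; congr 1; ring
    _ ≤ Real.exp (-x) := by
        apply Real.exp_le_exp.2
        apply neg_le_neg
        rw [le_div_iff₀ hkp, mul_comm]
        exact Nat.le_ceil _

lemma few_condition {k : ℕ} (hk : 2 ≤ k) {ε : ℝ} (h0 : 0 < ε) (h1 : ε ≤ 1) :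
    1 ≤ ⌈k * (ε / 2)⌉₊ ∧ ⌈k * (ε / 2)⌉₊ ≤ ⌈k * Real.log (3 / ε)⌉₊ ∧
    (1 - 1 / (k : ℝ)) ^ ⌈k * Real.log (3 / ε)⌉₊ + (1 - 1 / (k : ℝ)) ^ ⌈k * (ε / 2)⌉₊ + 0 < 1 := by
  have hk0 : (2 : ℝ) ≤ k := by exact_mod_cast hk
  have hkp : (0 : ℝ) < k := by linarith
  have hl : 1 / 2 ≤ Real.log (3 / ε) := by
    rw [Real.le_log_iff_exp_le (by positivity)]
    have e1 : Real.exp (1 / 2) ≤ 3 := by
      have h2 := Real.exp_one_lt_d9
      have h3 : Real.exp (1 / 2) ≤ Real.exp 1 := Real.exp_le_exp.2 (by norm_num)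
      linarith
    refine e1.trans ?_
    rw [le_div_iff₀ h0]; linarith
  refine ⟨Nat.ceil_pos.2 (by positivity), Nat.ceil_le_ceil (by gcongr; linarith), ?_⟩
  have e1 := small_pow hk (show 0 ≤ Real.log (3 / ε) by linarith)
  have e2 := small_pow hk (show 0 ≤ ε / 2 by linarith)
  have e3 : Real.exp (-(Real.log (3 / ε))) = ε / 3 := by
    rw [Real.exp_neg, Real.exp_log (by positivity), inv_div]
  have e4 : Real.exp (-(ε / 2)) < 1 - ε / 3 := by
    have h5 := Real.quadratic_le_exp_of_nonneg (show 0 ≤ ε / 2 by linarith)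
    rw [Real.exp_neg, inv_lt_comm₀ (Real.exp_pos _) (by linarith)]
    refine lt_of_lt_of_le ?_ h5
    rw [inv_lt_iff_one_lt_mul₀ (by linarith)]
    nlinarith [mul_pos h0 h0, mul_pos (mul_pos h0 h0) h0]
  linarith

/-- **Waring's problem with multiples of a generic number.** -/
theorem result :
    -- without multiples of `β` this is the problem of the question: `Order β k s 0` says `G(k) ≤ s`
    (∀ (β : ℝ) (k s : ℕ), Order β k s 0 ↔
      ∃ n₀ : ℕ, ∀ n ≥ n₀, ∃ x : Fin s → ℕ, ∑ i, x i ^ k = n) ∧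
    -- at least `k` powers are necessary
    (∀ β : ℝ, 0 < β → ∀ k s t : ℕ, Order β k s t → k ≤ s + t) ∧
    -- upper bounds for almost every `β`, for all `k` at once
    ∀ᵐ β : ℝ, 0 < β → ∀ k : ℕ, 2 ≤ k →
      Order β k (2 * ⌈k * Real.log 2⌉₊) (2 * ⌈k * Real.log 2⌉₊) ∧
      (∀ ε : ℝ, 0 < ε → ε ≤ 1 → Order β k (2 * ⌈k * Real.log (3 / ε)⌉₊) (2 * ⌈k * (ε / 2)⌉₊)) ∧
      ∀ s t : ℕ, 1 ≤ t → t ≤ s → ∀ δ : ℝ, 0 ≤ δ →
        (1 - 1 / (k : ℝ)) ^ s + (1 - 1 / (k : ℝ)) ^ t + δ < 1 →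
        Order β k (2 * s) (2 * t) ∧ Near β k (2 * s) (2 * t) δ := by
  refine ⟨fun β k s => Pool.Agent.V7H21.MW.order_zero β k s,
    fun β hβ k s t h => Pool.Agent.V7H21.MW.le_of_order hβ h, ?_⟩
  filter_upwards [Pool.Agent.V7H21.MW.main] with β hβ h0 k hk
  obtain ⟨h1, h2⟩ := hβ h0 k hk
  refine ⟨h1, fun ε e0 e1 => ?_, fun s t ht hst δ hδ h =>
    ⟨(h2 s t ht hst δ hδ h).1, near_of (h2 s t ht hst δ hδ h).2⟩⟩
  obtain ⟨c1, c2, c3⟩ := few_condition hk e0 e1
  exact (h2 _ _ c1 c2 0 le_rfl c3).1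

end Pool.Agent.Results.MP_45c923_nt.GenericMultiplesH21
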