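import Pool.Agent.V7H89.GP.AsE

/-!
# Waring's problem for almost all polynomials: order 2k + 1

For a fixed leading coefficient γ > 0 (for example γ = 1) and almost all (α_1, ..., α_{k-1}) every
large integer is a sum of exactly 2k + 1 integer parts of values of the polynomial
f(x) = γ x^k + α_{k-1} x^{k-1} + ... + α_1 x at positive integers.

Idea of the proof. (1) For variables in k separated intervals of [1, P] the number of pairs of
k-tuples whose power sums of the orders 1, ..., k differ by at most V is O(V P^k); an average over the
coefficients gives the sharp mean value P^(k + ε) for almost all of them. (2) A large exponential sum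
over the values βf(n), n in an interval, forces rational approximations with a small common denominator
to β γ and β α_{k-1}; this is impossible outside of a small neighbourhood of β = 0 if
α_{k-1}/γ is not too close to rational numbers. (3) A comparison of the number of representations of
N with its average over a short interval.
-/

namespace Pool.Agent.Results.MP_45c923_nt.GenericPolynomialH89

open MeasureTheory

/-- the integer part of γ n^k + α_{k-1} n^{k-1} + ... + α_1 n; here α j is the coefficient of
n^(j+1), for 0 ≤ j < k - 1 -/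
noncomputable def val (k : ℕ) (γ : ℝ) (α : Fin (k - 1) → ℝ) (n : ℕ) : ℤ :=
  ⌊γ * (n : ℝ) ^ k + ∑ j : Fin (k - 1), α j * (n : ℝ) ^ ((j : ℕ) + 1)⌋

/-- every sufficiently large integer is a sum of exactly s of these values at positive integers -/
def Basis (k : ℕ) (γ : ℝ) (α : Fin (k - 1) → ℝ) (s : ℕ) : Prop :=
  ∃ N₀ : ℕ, ∀ N : ℕ, N₀ ≤ N → ∃ n : Fin s → ℕ, (∀ i, 1 ≤ n i) ∧ ∑ i, val k γ α (n i) = (N : ℤ)

theorem result : ∀ k : ℕ, 2 ≤ k → ∀ γ : ℝ, 0 < γ →
    ∀ᵐ α : Fin (k - 1) → ℝ, Basis k γ α (2 * k + 1) := by
  intro k hk γ hγ
  obtain ⟨d, rfl⟩ : ∃ d, k = d + 2 := ⟨k - 2, by omega⟩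
  exact Pool.Agent.V7H89.GP.final_d d γ hγ

end Pool.Agent.Results.MP_45c923_nt.GenericPolynomialH89
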