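import Pool.Agent.V7H64.WX.FinD

set_option autoImplicit false

/-!
# MP_45c923_nt: Waring's problem for almost all real exponents (helper64)

For real `c > 1` one asks for how many summands `k` all large integers are sums of `k` numbers `⌊n ^ c⌋`
(Segal's form of Waring's problem).  Integer exponents `c` give back Waring's function `G(c)`.  Known for every
`c` is an upper bound `O(c log c)`, and `k ≥ c` is needed.  We prove that for almost all real `c > 1` the order is
linear in `c`: at most `4 (log 2) c + 5`.

Proof.  Take `s` variables with ranges `N ^ (q ^ i)`, `i < s`, where `q` is slightly smaller than the square root of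
`1 - 1 / c`, twice, and one full variable `x`.  For integer exponents and `q = 1 - 1 / c` (diminishing ranges) the
differences of the sums of powers are bounded below, variable after variable.  Here the ranges overlap, and the sums
can be close; but as a function of the exponent `c` the difference of two sums has a large derivative wherever it is
small, so that the measure of the exponents for which it is small is small.  Summation over all pairs of tuples and the
lemma of Borel and Cantelli give for almost all `c` a mean value of the expected size up to `(log N) ^ 3`, and the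
sum of the powers of `q` exceeds `c` already for `s ~ 2 (log 2) c`.  The last variable has the trivial major
arc around `0` only, by van der Corput's method for the exponent `c`, not an integer.
-/

namespace Pool.Agent.Results.MP_45c923_nt.RealExponentsH64

open MeasureTheory

/-- Every sufficiently large natural number is a sum of exactly `k` numbers `⌊n ^ c⌋` with natural numbers `n ≥ 1`. -/
def Suffices (c : ℝ) (k : ℕ) : Prop :=
  ∃ M₀ : ℕ, ∀ M ≥ M₀, ∃ n : Fin k → ℕ, (∀ i, 1 ≤ n i) ∧ ∑ i, ⌊(n i : ℝ) ^ c⌋₊ = M

/-- **Waring's problem for almost all real exponents.** -/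
theorem result : ∀ᵐ c : ℝ, 1 < c →
    (∀ k : ℕ, 4 * Real.log 2 * c + 5 ≤ k → Suffices c k) ∧
    (∀ s : ℕ, (Real.sqrt (1 - 1 / c)) ^ s + (Real.sqrt (1 - 1 / c)) ^ (s + 1) < 1 → Suffices c (2 * s + 3)) ∧
    (∀ k : ℕ, Suffices c k → c ≤ k) := by
  filter_upwards [Pool.Agent.V7H64.WX.almost_all] with c hc hc1
  refine ⟨fun k hk => ?_, hc hc1, fun k hk => Pool.Agent.V7H64.WX.Suffices.lower (by linarith) hk⟩
  have hc0 : 0 < c := by linarith
  have hl2 : 0 < Real.log 2 := Real.log_pos (by norm_num)
  set s : ℕ := ⌊2 * c * Real.log 2⌋₊ + 1 with hs
  have h1 := Nat.lt_floor_add_one (2 * c * Real.log 2)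
  have h2 := Nat.floor_le (show 0 ≤ 2 * c * Real.log 2 by positivity)
  have h3 := hc hc1 s (Pool.Agent.V7H64.WX.levels_log c hc1 s (by rw [hs]; push_cast; exact h1))
  refine Pool.Agent.V7H64.WX.Suffices.mono h3 ?_
  have h4 : ((2 * s + 3 : ℕ) : ℝ) ≤ k := by
    rw [hs]
    push_cast
    linarith
  exact_mod_cast h4

end Pool.Agent.Results.MP_45c923_nt.RealExponentsH64
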